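import Pool.Agent.V11216.CoCons

/-!
# MP_dd3b7d_gt : co-consonance of the Smyth powerspace does not pass to the space
-/

set_option autoImplicit false

namespace Pool.Agent.Results.MP_dd3b7d_gt.CofiniteNat

open Set TopologicalSpace Pool.Agent.V11216.CoCons

universe u

/-- If every open set is compact, then the Smyth powerspace is co-consonant. -/
theorem smyth_of_noetherian (X : Type u) [TopologicalSpace X]
    (hX : ∀ U : Set X, IsOpen U → IsCompact U) : CoConsonant (Smyth X) := by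
  rw [coConsonant_iff]
  intro F hF W hW
  let D : Set (Set (Smyth X)) := {V | ∃ 𝒰 : Set (Set X), 𝒰.Finite ∧ (∀ U ∈ 𝒰, IsOpen U ∧ {K : Smyth X | K.1 ⊆ U} ⊆ W) ∧
    V = ⋃ U ∈ 𝒰, {K : Smyth X | K.1 ⊆ U}}
  have hWo := hF.isOpen W hW
  have hDW : ⋃₀ D = W := by
    apply Subset.antisymm
    · refine sUnion_subset ?_
      rintro V ⟨𝒰, -, h𝒰, rfl⟩
      exact iUnion₂_subset fun U hU => (h𝒰 U hU).2
    · intro K hK
      obtain ⟨U, hU, hKU, hUW⟩ := Smyth.exists_box hWo hK
      refine ⟨_, ⟨{U}, finite_singleton U, ?_, rfl⟩, mem_biUnion (mem_singleton U) hKU⟩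
      rintro U' rfl
      exact ⟨hU, hUW⟩
  obtain ⟨V, ⟨𝒰, h𝒰f, h𝒰, rfl⟩, hVF⟩ := hF.dir D ⟨∅, ∅, finite_empty, by simp, by simp⟩ (by
      rintro _ ⟨𝒰, h𝒰f, h𝒰, rfl⟩ _ ⟨𝒱, h𝒱f, h𝒱, rfl⟩
      refine ⟨_, ⟨𝒰 ∪ 𝒱, h𝒰f.union h𝒱f, ?_, rfl⟩, biUnion_subset_biUnion_left subset_union_left,
        biUnion_subset_biUnion_left subset_union_right⟩
      rintro U (hU | hU)
      · exact h𝒰 U hU
      · exact h𝒱 U hU) (by
      rintro _ ⟨𝒰, -, h𝒰, rfl⟩
      exact isOpen_biUnion fun U hU => Smyth.isOpen_box (h𝒰 U hU).1) (hDW ▸ hW)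
  refine ⟨{K : Smyth X | K.1 ∈ 𝒰}, ?_, ?_, ?_⟩
  · exact h𝒰f.preimage Subtype.val_injective.injOn
  · intro K hK
    exact (h𝒰 K.1 hK).2 (show K.1 ⊆ K.1 from subset_rfl)
  · intro V hV hEV
    refine hF.upper _ hVF V hV ?_
    refine iUnion₂_subset fun U hU K hK => ?_
    have hUne : U.Nonempty := K.2.1.mono hK
    have hUo := (h𝒰 U hU).1
    let L : Smyth X := ⟨U, hUne, hX U hUo, Subset.antisymm (subset_sInter fun _ h => h.2)
      (sInter_subset_of_mem ⟨hUo, subset_rfl⟩)⟩
    obtain ⟨U', -, hLU', hU'V⟩ := Smyth.exists_box hV (hEV (show L ∈ {K : Smyth X | K.1 ∈ 𝒰} from hU))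
    exact hU'V ((show K.1 ⊆ U from hK).trans hLU')

theorem not_coConsonant : ¬ CoConsonant (CofiniteTopology ℕ) := by
  rw [coConsonant_iff]
  intro h
  obtain ⟨E, hE, -, hEF⟩ := h {univ} ⟨by
      rintro U rfl
      exact isOpen_univ, by
      rintro U rfl V - hUV
      exact univ_subset_iff.1 hUV, by
      intro D hD hdir hop hDu
      rw [mem_singleton_iff] at hDu
      -- some nonempty member
      obtain ⟨U, hU, x, hx⟩ : ∃ U ∈ D, U.Nonempty := by
        have : (default : CofiniteTopology ℕ) ∈ ⋃₀ D := by rw [hDu]; trivial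
        obtain ⟨U, hU, hx⟩ := this
        exact ⟨U, hU, _, hx⟩
      have hfin : Uᶜ.Finite := CofiniteTopology.isOpen_iff.1 (hop U hU) ⟨x, hx⟩
      have key : ∀ S : Set (CofiniteTopology ℕ), S.Finite → ∃ V ∈ D, U ⊆ V ∧ S ⊆ V := by
        intro S hS
        induction S, hS using Set.Finite.induction_on with
        | empty => exact ⟨U, hU, subset_rfl, empty_subset _⟩
        | insert _ _ ih =>
          rename_i y S _ _
          obtain ⟨V, hV, hUV, hSV⟩ := ih
          have hy : y ∈ ⋃₀ D := by rw [hDu]; trivial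
          obtain ⟨V', hV', hy⟩ := hy
          obtain ⟨V'', hV'', h1, h2⟩ := hdir V hV V' hV'
          exact ⟨V'', hV'', hUV.trans h1, insert_subset (h2 hy) (hSV.trans h1)⟩
      obtain ⟨V, hV, hUV, hSV⟩ := key _ hfin
      refine ⟨V, hV, ?_⟩
      rw [mem_singleton_iff, eq_univ_iff_forall]
      intro y
      by_cases hy : y ∈ U
      · exact hUV hy
      · exact hSV hy⟩ univ rfl
  have hinf : Infinite (CofiniteTopology ℕ) := CofiniteTopology.of.infinite_iff.1 inferInstance
  obtain ⟨y, hy⟩ := hE.exists_notMem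
  have h1 := hEF {y}ᶜ (CofiniteTopology.isOpen_iff.2 fun _ => by simp) (by
    intro x hx hxy
    rw [show x = y from hxy] at hx
    exact hy hx)
  rw [mem_singleton_iff, eq_univ_iff_forall] at h1
  exact h1 y rfl

/-- There is a `T₀` space which is not co-consonant although its Smyth powerspace is co-consonant:
the natural numbers with the cofinite topology. -/
theorem result : ∃ (X : Type) (_ : TopologicalSpace X), T0Space X ∧ CoConsonant (Smyth X) ∧
    ¬ CoConsonant X :=
  ⟨CofiniteTopology ℕ, inferInstance, inferInstance,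
    smyth_of_noetherian _ (fun U _ => NoetherianSpace.isCompact U), not_coConsonant⟩

end Pool.Agent.Results.MP_dd3b7d_gt.CofiniteNat
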